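import Pool.Agent.W910.Hull.Main

/-!
# Towers of null sets
-/

set_option autoImplicit false

namespace Pool.Agent.W910.Hull

open Cardinal MeasureTheory Set Pool.Agent.W684

/-- the well-ordered set of type `ω₂` -/
abbrev Om2 : Type := (ℵ_ 2 : Cardinal.{0}).ord.ToType

theorem mk_Om2 : #Om2 = ℵ_ 2 := Cardinal.mk_ord_toType _

theorem succ_aleph1 : Order.succ (ℵ₁ : Cardinal.{0}) = ℵ_ 2 := by
  rw [Cardinal.succ_aleph]
  have : (1 : Ordinal.{0}) + 1 = 2 := one_add_one_eq_two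
  rw [this]

theorem mk_Iio_Om2 (a : Om2) : #(Set.Iio a) ≤ ℵ₁ := by
  have h3 := Cardinal.mk_Iio_toType_ord_lt a
  have h4 : #(Set.Iio a) < Order.succ ℵ₁ := by
    rw [succ_aleph1]
    exact h3
  exact Order.lt_succ_iff.1 h4

instance : Nonempty Om2 := by
  rw [← Cardinal.mk_ne_zero_iff, mk_Om2]
  exact (Cardinal.aleph_pos 2).ne'

/-- Under Martin's axiom and `𝔠 ≤ ℵ₂` there is an increasing chain of type `ω₂` of Borel null sets
which is cofinal in the ideal of the null sets. -/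
theorem exists_tower (hMA : MartinAxiomAleph1) (hc : Cardinal.continuum.{0} ≤ ℵ_ 2) :
    ∃ C : Om2 → Set ℝ, (∀ i, MeasurableSet (C i)) ∧ (∀ i, volume (C i) = 0) ∧
      (∀ i j, i ≤ j → C i ⊆ C j) ∧ ∀ N : Set ℝ, volume N = 0 → ∃ i, N ⊆ C i := by
  classical
  have h1 : #{N : Set ℝ // MeasurableSet N ∧ volume N = 0} ≤ #Om2 := by
    rw [mk_Om2]
    refine le_trans ?_ hc
    have h2 : #{N : Set ℝ // MeasurableSet N} ≤ 𝔠 := by
      have h3 := MeasurableSpace.cardinal_measurableSet_le_continuum (α := ℝ)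
        (s := MeasurableSpace.countableGeneratingSet ℝ)
        (Set.Countable.le_aleph0 (MeasurableSpace.countable_countableGeneratingSet) |>.trans
          Cardinal.aleph0_le_continuum)
      have h4 : MeasurableSpace.generateFrom (MeasurableSpace.countableGeneratingSet ℝ) =
        (inferInstance : MeasurableSpace ℝ) := MeasurableSpace.generateFrom_countableGeneratingSet
      rw [h4] at h3
      exact h3
    refine le_trans ?_ h2
    exact Cardinal.mk_le_of_injective (f := fun N => ⟨N.1, N.2.1⟩) (fun N M h => by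
      simpa [Subtype.ext_iff] using h)
  obtain ⟨e⟩ := h1
  have : Nonempty {N : Set ℝ // MeasurableSet N ∧ volume N = 0} := ⟨⟨∅, by simp⟩⟩
  obtain ⟨g, hg⟩ : ∃ g : Om2 → {N : Set ℝ // MeasurableSet N ∧ volume N = 0},
      Function.Surjective g := ⟨Function.invFun e, Function.invFun_surjective e.injective⟩
  let C : Om2 → Set ℝ := WellFounded.fix (wellFounded_lt (α := Om2)) fun i C' =>
    toMeasurable volume ((g i).1 ∪ ⋃ j : {j // j < i}, C' j.1 j.2)
  have hC : ∀ i, C i = toMeasurable volume ((g i).1 ∪ ⋃ j : {j // j < i}, C j.1) := fun i => by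
    simp only [C]
    rw [WellFounded.fix_eq]
  have hsub : ∀ i, (g i).1 ∪ (⋃ j : {j // j < i}, C j.1) ⊆ C i := fun i => by
    rw [hC i]
    exact subset_toMeasurable _ _
  refine ⟨C, fun i => ?_, fun i => ?_, ?_, ?_⟩
  · rw [hC]
    exact measurableSet_toMeasurable _ _
  · induction i using WellFoundedLT.induction with
    | ind i ih =>
      rw [hC, measure_toMeasurable, measure_union_null_iff]
      exact ⟨(g i).2.2, null_iUnion hMA (mk_Iio_Om2 i) _ fun j => ih j.1 j.2⟩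
  · intro i j hij
    rcases hij.lt_or_eq with h | rfl
    · refine Set.Subset.trans ?_ (hsub j)
      exact Set.Subset.trans (Set.subset_iUnion (fun k : {k // k < j} => C k.1) ⟨i, h⟩)
        Set.subset_union_right
    · exact Set.Subset.refl _
  · intro N hN
    obtain ⟨i, hi⟩ := hg ⟨toMeasurable volume N, measurableSet_toMeasurable _ _, by
      rw [measure_toMeasurable, hN]⟩
    refine ⟨i, (subset_toMeasurable volume N).trans ?_⟩
    have h2 : (g i).1 ⊆ C i := Set.Subset.trans Set.subset_union_left (hsub i)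
    rwa [hi] at h2

/-- Under Martin's axiom and `𝔠 ≤ ℵ₂` there is a monotone Borel hull operation on the null sets. -/
theorem hull_null (hMA : MartinAxiomAleph1) (hc : Cardinal.continuum.{0} ≤ ℵ_ 2) :
    ∃ ψ : Set ℝ → Set ℝ, (∀ A, volume A = 0 → MeasurableSet (ψ A) ∧ A ⊆ ψ A ∧
      volume (ψ A \ A) = 0) ∧
      ∀ A B, volume A = 0 → volume B = 0 → A ⊆ B → ψ A ⊆ ψ B := by
  classical
  obtain ⟨C, h1, h2, h3, h4⟩ := exists_tower hMA hc
  let m : Set ℝ → Om2 := fun N => if h : {i | N ⊆ C i}.Nonempty then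
    (wellFounded_lt (α := Om2)).min {i | N ⊆ C i} h else Classical.arbitrary Om2
  have hm : ∀ N, volume N = 0 → N ⊆ C (m N) := by
    intro N hN
    have h : {i | N ⊆ C i}.Nonempty := h4 N hN
    simp only [m, dif_pos h]
    exact WellFounded.min_mem _ _ h
  have hmle : ∀ N i, N ⊆ C i → m N ≤ i := by
    intro N i hi
    have h : {i | N ⊆ C i}.Nonempty := ⟨i, hi⟩
    simp only [m, dif_pos h]
    exact not_lt.1 (WellFounded.not_lt_min _ _ hi)
  refine ⟨fun A => C (m A), fun A hA => ⟨h1 _, hm A hA, ?_⟩, fun A B _ hB hAB => ?_⟩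
  · exact measure_mono_null Set.sdiff_subset (h2 _)
  · exact h3 _ _ (hmle A _ (hAB.trans (hm B hB)))

/-- the additivity of the null ideal -/
noncomputable def addN : Cardinal.{0} := sInf {κ | ∃ F : Set (Set ℝ), #F = κ ∧
  (∀ A ∈ F, volume A = 0) ∧ volume (⋃₀ F) ≠ 0}

/-- the cofinality of the null ideal -/
noncomputable def cofN : Cardinal.{0} := sInf {κ | ∃ F : Set (Set ℝ), #F = κ ∧
  (∀ A ∈ F, volume A = 0) ∧ ∀ N : Set ℝ, volume N = 0 → ∃ A ∈ F, N ⊆ A}

theorem add_eq_cof (hMA : MartinAxiomAleph1) (hc : Cardinal.continuum.{0} ≤ ℵ_ 2) :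
    addN = cofN := by
  obtain ⟨C, h1, h2, h3, h4⟩ := exists_tower hMA hc
  have hcof : ∃ F : Set (Set ℝ), #F = cofN ∧ (∀ A ∈ F, volume A = 0) ∧
      ∀ N : Set ℝ, volume N = 0 → ∃ A ∈ F, N ⊆ A := by
    apply csInf_mem (s := {κ | ∃ F : Set (Set ℝ), #F = κ ∧
      (∀ A ∈ F, volume A = 0) ∧ ∀ N : Set ℝ, volume N = 0 → ∃ A ∈ F, N ⊆ A})
    exact ⟨_, Set.range C, rfl, by rintro _ ⟨i, rfl⟩; exact h2 i, fun N hN => by
      obtain ⟨i, hi⟩ := h4 N hN
      exact ⟨_, ⟨i, rfl⟩, hi⟩⟩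
  have huniv : ∀ F : Set (Set ℝ), (∀ N : Set ℝ, volume N = 0 → ∃ A ∈ F, N ⊆ A) →
      volume (⋃₀ F) ≠ 0 := by
    intro F hF
    have : ⋃₀ F = Set.univ := by
      rw [Set.eq_univ_iff_forall]
      intro x
      obtain ⟨A, hA, hx⟩ := hF {x} (by simp)
      exact ⟨A, hA, hx rfl⟩
    rw [this]
    simp
  apply le_antisymm
  · obtain ⟨F, hF1, hF2, hF3⟩ := hcof
    exact csInf_le' ⟨F, hF1, hF2, huniv F hF3⟩
  · have h5 : cofN ≤ ℵ_ 2 := by
      refine le_trans (csInf_le' ⟨Set.range C, rfl, by rintro _ ⟨i, rfl⟩; exact h2 i,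
        fun N hN => ?_⟩) (mk_range_le.trans mk_Om2.le)
      obtain ⟨i, hi⟩ := h4 N hN
      exact ⟨_, ⟨i, rfl⟩, hi⟩
    refine h5.trans ?_
    apply le_csInf
    · obtain ⟨F, hF1, hF2, hF3⟩ := hcof
      exact ⟨_, F, rfl, hF2, huniv F hF3⟩
    · rintro κ ⟨F, rfl, hF2, hF3⟩
      by_contra hlt
      rw [not_le, ← succ_aleph1, Order.lt_succ_iff] at hlt
      apply hF3
      rw [Set.sUnion_eq_iUnion]
      exact null_iUnion hMA hlt _ fun A => hF2 A.1 A.2

end Pool.Agent.W910.Hull
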