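import Pool.Agent.W910.Hull.MATools

/-!
# Null sets attached to sets of positive measure, and a transfinite choice of reals
-/

set_option autoImplicit false

namespace Pool.Agent.W910.Hull

open Cardinal MeasureTheory Set Metric Filter Topology

/-- an open set of small measure which contains the rational numbers -/
theorem exists_U : ∃ U : Set ℝ, IsOpen U ∧ (∀ q : ℚ, (q : ℝ) ∈ U) ∧ volume U < 1 := by
  have h1 : volume (Set.range ((↑) : ℚ → ℝ)) = 0 := (Set.countable_range _).measure_zero _
  obtain ⟨U, hU1, hU2, hU3⟩ := Set.exists_isOpen_lt_of_lt (μ := volume) (Set.range ((↑) : ℚ → ℝ))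
    1 (by rw [h1]; exact one_pos)
  exact ⟨U, hU2, fun q => hU1 ⟨q, rfl⟩, hU3⟩

/-- almost every real is a rational translate of a member of a given set of positive measure -/
theorem null_bad {A : Set ℝ} (hA : MeasurableSet A) (hpos : 0 < volume A) :
    volume {y : ℝ | ∀ q : ℚ, y + q ∉ A} = 0 := by
  set B : Set ℝ := {y : ℝ | ∀ q : ℚ, y + q ∉ A} with hB
  have hBm : MeasurableSet B := by
    have : B = ⋂ q : ℚ, (fun y : ℝ => y + q) ⁻¹' Aᶜ := by
      ext y
      simp [hB]
    rw [this]
    exact MeasurableSet.iInter fun q => (measurable_id.add_const _) hA.compl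
  by_contra hne
  have hBpos : 0 < volume B := pos_iff_ne_zero.2 hne
  -- density points
  have key : ∀ S : Set ℝ, MeasurableSet S → 0 < volume S → ∃ x, ∀ (w : ℕ → ℝ) (δ : ℕ → ℝ),
      Tendsto δ atTop (𝓝[>] 0) → (∀ j, x ∈ closedBall (w j) (1 * δ j)) →
      Tendsto (fun j => volume (S ∩ closedBall (w j) (δ j)) / volume (closedBall (w j) (δ j)))
        atTop (𝓝 1) := by
    intro S hS hSpos
    have h1 := IsUnifLocDoublingMeasure.ae_tendsto_measure_inter_div (volume : Measure ℝ) S 1
    have h2 : (volume.restrict S) ≠ 0 := by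
      intro h
      rw [Measure.restrict_eq_zero] at h
      exact hSpos.ne' h
    have : NeBot (ae (volume.restrict S)) := by
      rw [ae_neBot]
      exact h2
    obtain ⟨x, hx⟩ := h1.exists
    exact ⟨x, fun w δ hδ hw => hx w δ hδ (Filter.Eventually.of_forall hw)⟩
  obtain ⟨a, ha⟩ := key A hA hpos
  obtain ⟨b, hb⟩ := key B hBm hBpos
  let δ : ℕ → ℝ := fun j => 1 / ((j : ℝ) + 1)
  have hδpos : ∀ j, 0 < δ j := fun j => by positivity
  have hδ : Tendsto δ atTop (𝓝[>] 0) := by
    rw [tendsto_nhdsWithin_iff]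
    exact ⟨tendsto_one_div_add_atTop_nhds_zero_nat, Filter.Eventually.of_forall hδpos⟩
  have hq : ∀ j, ∃ q : ℚ, |a - b - q| ≤ δ j := by
    intro j
    obtain ⟨q, hq1, hq2⟩ := exists_rat_btwn (show a - b - δ j < a - b from by linarith [hδpos j])
    refine ⟨q, ?_⟩
    rw [abs_le]
    constructor <;> linarith [hδpos j]
  choose q hq using hq
  have h1 := ha (fun j => b + q j) δ hδ (by
    intro j
    rw [Metric.mem_closedBall, Real.dist_eq, one_mul]
    have := hq j
    rwa [show a - (b + q j) = a - b - q j by ring])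
  have h2 := hb (fun _ => b) δ hδ (by
    intro j
    rw [Metric.mem_closedBall, dist_self, one_mul]
    exact (hδpos j).le)
  have h3 : ∀ᶠ j in atTop, (2⁻¹ : ENNReal) <
      volume (A ∩ closedBall (b + q j) (δ j)) / volume (closedBall (b + q j : ℝ) (δ j)) :=
    h1.eventually (lt_mem_nhds ENNReal.one_half_lt_one)
  have h4 : ∀ᶠ j in atTop, (2⁻¹ : ENNReal) <
      volume (B ∩ closedBall b (δ j)) / volume (closedBall b (δ j)) :=
    h2.eventually (lt_mem_nhds ENNReal.one_half_lt_one)
  obtain ⟨j, hj1, hj2⟩ := (h3.and h4).exists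
  rw [Real.volume_closedBall] at hj1 hj2
  have hδ2 : ENNReal.ofReal (2 * δ j) ≠ 0 := by
    rw [ne_eq, ENNReal.ofReal_eq_zero, not_le]
    linarith [hδpos j]
  rw [ENNReal.lt_div_iff_mul_lt (Or.inl hδ2) (Or.inl ENNReal.ofReal_ne_top)] at hj1 hj2
  have h5 : volume ((fun y : ℝ => y + q j) ⁻¹' (A ∩ closedBall (b + q j) (δ j))) =
      volume (A ∩ closedBall (b + q j) (δ j)) := measure_preimage_add_right _ _ _
  have h6 : Disjoint ((fun y : ℝ => y + q j) ⁻¹' (A ∩ closedBall (b + q j) (δ j)))
      (B ∩ closedBall b (δ j)) := by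
    rw [Set.disjoint_left]
    rintro y ⟨hy, _⟩ ⟨hyB, _⟩
    exact hyB (q j) hy
  have h7 : (fun y : ℝ => y + q j) ⁻¹' (A ∩ closedBall (b + q j) (δ j)) ∪
      (B ∩ closedBall b (δ j)) ⊆ closedBall b (δ j) := by
    refine Set.union_subset ?_ Set.inter_subset_right
    rintro y ⟨_, hy⟩
    rw [Metric.mem_closedBall, Real.dist_eq] at hy ⊢
    rwa [show y + (q j : ℝ) - (b + q j) = y - b by ring] at hy
  have h8 := measure_mono (μ := (volume : Measure ℝ)) h7
  rw [measure_union h6 (hBm.inter isClosed_closedBall.measurableSet), h5,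
    Real.volume_closedBall] at h8
  have h9 := ENNReal.add_lt_add hj1 hj2
  rw [← add_mul, ENNReal.inv_two_add_inv_two, one_mul] at h9
  exact absurd h8 (not_le.2 h9)

/-- a set of positive measure contains a nonempty compact set all of whose nonempty portions have
positive measure -/
theorem exists_fat {S : Set ℝ} (hS : MeasurableSet S) (hpos : 0 < volume S) :
    ∃ K ⊆ S, IsCompact K ∧ K.Nonempty ∧
      ∀ O : Set ℝ, IsOpen O → (K ∩ O).Nonempty → 0 < volume (K ∩ O) := by
  obtain ⟨K, hKS, hK, hKpos⟩ := hS.exists_lt_isCompact hpos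
  let μ : Measure ℝ := volume.restrict K
  have hsub : μ.support ⊆ K := by
    have := Measure.support_restrict_subset (μ := (volume : Measure ℝ)) (s := K)
    rw [hK.isClosed.closure_eq] at this
    exact this.trans Set.inter_subset_left
  refine ⟨μ.support, hsub.trans hKS, hK.of_isClosed_subset Measure.isClosed_support hsub, ?_, ?_⟩
  · rw [Measure.nonempty_support_iff]
    intro h
    rw [Measure.restrict_eq_zero] at h
    exact hKpos.ne' h
  · rintro O hO ⟨x, hx, hxO⟩
    have h1 : 0 < μ O := (Measure.mem_support_iff_forall x).1 hx O (hO.mem_nhds hxO)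
    have h2 : μ (μ.support ∩ O) = μ O := by
      rw [Set.inter_comm]
      exact measure_inter_conull Measure.measure_compl_support
    rw [← h2] at h1
    exact h1.trans_le (Measure.restrict_apply_le _ _)

theorem exists_seq (B : ℝ → Set ℝ) (hB : ∀ y, volume (B y) = 0) :
    ∃ z : Om1 → ℝ, ∀ i j, j < i → z i ∉ B (z j) := by
  classical
  have h1 : ∀ S : Set ℝ, volume S = 0 → ∃ x, x ∉ S := by
    intro S hS
    by_contra hcon
    push Not at hcon
    rw [Set.eq_univ_of_forall hcon] at hS
    simp at hS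
  let pick : Set ℝ → ℝ := fun S => if h : ∃ x, x ∉ S then h.choose else 0
  have hpick : ∀ S, volume S = 0 → pick S ∉ S := by
    intro S hS
    have h := h1 S hS
    simp only [pick, dif_pos h]
    exact h.choose_spec
  let z : Om1 → ℝ := WellFounded.fix (wellFounded_lt (α := Om1)) fun i z' =>
    pick (⋃ j : {j // j < i}, B (z' j.1 j.2))
  have hz : ∀ i, z i = pick (⋃ j : {j // j < i}, B (z j.1)) := fun i => by
    simp only [z]
    rw [WellFounded.fix_eq]
  refine ⟨z, fun i j hj hmem => ?_⟩
  have h2 : volume (⋃ j : {j // j < i}, B (z j.1)) = 0 := by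
    have : Countable {j // j < i} :=
      ((countable_Iic i).mono (fun j (hj : j < i) => hj.le) : {j | j < i}.Countable).to_subtype
    exact measure_iUnion_null fun j => hB _
  apply hpick _ h2
  rw [← hz i]
  exact Set.mem_iUnion.2 ⟨⟨j, hj⟩, hmem⟩

end Pool.Agent.W910.Hull
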