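import Pool.Agent.W910.Hull.MATools

/-!
# Coverings of analytic sets by `ℵ₁` closed sets under Martin's axiom
-/

set_option autoImplicit false

namespace Pool.Agent.W910.Hull

open Cardinal MeasureTheory Set Pool.Agent.W684

/-- the basic clopen set of the Baire space given by a finite sequence -/
def cyl (s : List ℕ) : Set (ℕ → ℕ) := {x | ∀ k, k < s.length → s.getD k 0 = x k}

theorem mem_cyl_pre (x : ℕ → ℕ) (n : ℕ) : x ∈ cyl ((List.range n).map x) := by
  intro k hk
  simp only [List.length_map, List.length_range] at hk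
  simp [List.getD, hk]

theorem cyl_agree {s : List ℕ} {x y : ℕ → ℕ} (hx : x ∈ cyl s) (h : ∀ k, k < s.length → x k = y k) :
    y ∈ cyl s := fun k hk => (hx k hk).trans (h k hk)

/-- the finite sequences whose cylinder meets `T` -/
def CP (T : Set (ℕ → ℕ)) : Type := {s : List ℕ // (cyl s ∩ T).Nonempty}

instance (T : Set (ℕ → ℕ)) : Preorder (CP T) := Preorder.lift fun s : CP T => cyl s.1

instance (T : Set (ℕ → ℕ)) : Countable (CP T) :=
  inferInstanceAs (Countable {s : List ℕ // (cyl s ∩ T).Nonempty})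

/-- Under Martin's axiom, if an analytic set is covered by `ℵ₁` closed sets, then it is covered by
countably many of them. -/
theorem countable_cover (hMA : MartinAxiomAleph1) {ι : Type} (hι : #ι ≤ ℵ₁) (F : ι → Set ℝ)
    (hF : ∀ i, IsClosed (F i)) {E : Set ℝ} (hE : AnalyticSet E) (hcov : E ⊆ ⋃ i, F i) :
    ∃ t : Set ι, t.Countable ∧ E ⊆ ⋃ i ∈ t, F i := by
  classical
  rw [AnalyticSet] at hE
  rcases hE with rfl | ⟨f, hf, rfl⟩
  · exact ⟨∅, Set.countable_empty, by simp⟩
  -- good sequences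
  let good : List ℕ → Prop := fun s => ∃ t : Set ι, t.Countable ∧ f '' cyl s ⊆ ⋃ i ∈ t, F i
  let T : Set (ℕ → ℕ) := {x | ∀ s, x ∈ cyl s → ¬ good s}
  -- the union of all good pieces is covered
  obtain ⟨t0, ht0, hcov0⟩ : ∃ t : Set ι, t.Countable ∧ f '' Tᶜ ⊆ ⋃ i ∈ t, F i := by
    have h1 : ∀ s : List ℕ, ∃ t : Set ι, t.Countable ∧ (good s → f '' cyl s ⊆ ⋃ i ∈ t, F i) := by
      intro s
      by_cases hs : good s
      · obtain ⟨t, ht1, ht2⟩ := hs
        exact ⟨t, ht1, fun _ => ht2⟩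
      · exact ⟨∅, Set.countable_empty, fun h => absurd h hs⟩
    choose t ht1 ht2 using h1
    refine ⟨⋃ s, t s, Set.countable_iUnion ht1, ?_⟩
    rintro _ ⟨x, hx, rfl⟩
    simp only [T, Set.mem_compl_iff, Set.mem_ofPred_eq, not_forall, not_not] at hx
    obtain ⟨s, hxs, hs⟩ := hx
    have h2 := ht2 s hs (Set.mem_image_of_mem f hxs)
    simp only [Set.mem_iUnion] at h2 ⊢
    obtain ⟨i, hi, h3⟩ := h2
    exact ⟨i, ⟨s, hi⟩, h3⟩
  by_cases hT : T.Nonempty
  swap
  · rw [Set.not_nonempty_iff_eq_empty] at hT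
    refine ⟨t0, ht0, ?_⟩
    rw [hT, Set.compl_empty, Set.image_univ] at hcov0
    exact hcov0
  exfalso
  let P : Type := CP T
  have hle : ∀ s t : P, s ≤ t ↔ cyl s.1 ⊆ cyl t.1 := fun s t => Iff.rfl
  have hPc : IsCCC P := fun A _ => Set.to_countable A
  have hPne : Nonempty P := by
    obtain ⟨x, hx⟩ := hT
    exact ⟨⟨[], x, fun k hk => absurd hk (by simp), hx⟩⟩
  -- the initial segments of a point of `T`
  have hpre : ∀ x ∈ T, ∀ s : P, x ∈ cyl s.1 → ∀ n, s.1.length ≤ n →
      ∃ t : P, t ≤ s ∧ t.1 = (List.range n).map x := by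
    intro x hx s hxs n hn
    have hne : (cyl ((List.range n).map x) ∩ T).Nonempty := ⟨x, mem_cyl_pre x n, hx⟩
    refine ⟨⟨(List.range n).map x, hne⟩, ?_, rfl⟩
    refine (hle _ _).2 fun y hy => ?_
    refine cyl_agree hxs fun k hk => ?_
    have h1 := hy k (by simpa using hk.trans_le hn)
    have h2 := mem_cyl_pre x n k (by simpa using hk.trans_le hn)
    exact h2.symm.trans h1
  have hι' : #(Option ι × ℕ) ≤ ℵ₁ := by
    rw [Cardinal.mk_prod, Cardinal.mk_option]
    simp only [Cardinal.lift_id, Cardinal.mk_nat]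
    refine (mul_le_mul' (add_le_add hι Cardinal.one_lt_aleph0.le) le_rfl).trans ?_
    have h1 : (ℵ₀ : Cardinal.{0}) ≤ ℵ₁ := Cardinal.aleph0_le_aleph 1
    refine (mul_le_mul' (add_le_add le_rfl h1) h1).trans ?_
    rw [Cardinal.add_eq_self h1, Cardinal.mul_eq_self h1]
  obtain ⟨G, hG1, _, hG3, hG4⟩ := ma_indexed hMA hPc hι' (fun i => match i.1 with
    | none => {s : P | i.2 ≤ s.1.length}
    | some j => {s : P | cyl s.1 ∩ T ∩ f ⁻¹' F j = ∅}) (by
      rintro ⟨_ | j, n⟩ s
      · obtain ⟨x, hxs, hx⟩ := s.2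
        obtain ⟨t, hts, ht⟩ := hpre x hx s hxs (max n s.1.length) (le_max_right _ _)
        refine ⟨t, ?_, hts⟩
        show n ≤ t.1.length
        rw [ht]
        simp
      · by_contra hcon
        push Not at hcon
        have h1 : cyl s.1 ∩ T ⊆ f ⁻¹' F j := by
          rintro x ⟨hxs, hx⟩
          have h2 : ∀ n, ∃ y ∈ f ⁻¹' F j, ∀ k < n, y k = x k := by
            intro n
            obtain ⟨t, hts, ht⟩ := hpre x hx s hxs (max n s.1.length) (le_max_right _ _)
            have h3 : ¬ (cyl t.1 ∩ T ∩ f ⁻¹' F j = ∅) := fun h => hcon t h hts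
            rw [← ne_eq, ← Set.nonempty_iff_ne_empty] at h3
            obtain ⟨y, ⟨hy1, _⟩, hy2⟩ := h3
            refine ⟨y, hy2, fun k hk => ?_⟩
            rw [ht] at hy1
            have h4 := hy1 k (by simpa using Or.inl hk)
            have h5 := mem_cyl_pre x (max n s.1.length) k (by simpa using Or.inl hk)
            exact h4.symm.trans h5
          have h6 : IsClosed (f ⁻¹' F j) := (hF j).preimage hf
          choose y hy1 hy2 using h2
          refine h6.mem_of_tendsto (b := Filter.atTop) (f := y) ?_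
            (Filter.Eventually.of_forall hy1)
          rw [tendsto_pi_nhds]
          intro k
          refine tendsto_const_nhds.congr' ?_
          filter_upwards [Filter.eventually_gt_atTop k] with n hn
          exact (hy2 n k hn).symm
        obtain ⟨x, hxs, hx⟩ := s.2
        apply hx s.1 hxs
        refine ⟨insert j t0, ht0.insert j, ?_⟩
        rintro _ ⟨y, hy, rfl⟩
        by_cases hyT : y ∈ T
        · exact Set.mem_biUnion (Set.mem_insert _ _) (h1 ⟨hy, hyT⟩)
        · have h2 := hcov0 (Set.mem_image_of_mem f hyT)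
          rw [Set.mem_iUnion₂] at h2 ⊢
          obtain ⟨i, hi, h3⟩ := h2
          exact ⟨i, Set.mem_insert_of_mem _ hi, h3⟩)
  -- the generic point
  have hlen : ∀ n, ∃ s ∈ G, n ≤ s.1.length := by
    intro n
    obtain ⟨s, hs, h⟩ := hG4 (none, n)
    exact ⟨s, hs, h⟩
  choose σ hσG hσ using hlen
  let x : ℕ → ℕ := fun k => (σ (k + 1)).1.getD k 0
  have hx : ∀ s ∈ G, x ∈ cyl s.1 := by
    intro s hs k hk
    obtain ⟨r, _, h1, h2⟩ := hG3 s hs (σ (k + 1)) (hσG _)
    obtain ⟨y, hy, _⟩ := r.2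
    have h3 := (hle _ _).1 h1 hy k hk
    have h4 := (hle _ _).1 h2 hy k (hσ (k + 1))
    exact h3.trans h4.symm
  have hxT : x ∈ T := by
    intro s hxs hs
    obtain ⟨y, hy, hyT⟩ := (σ s.length).2
    apply hyT s _ hs
    refine cyl_agree hxs fun k hk => ?_
    have h1 := hx _ (hσG s.length) k (hk.trans_le (hσ _))
    have h2 := hy k (hk.trans_le (hσ _))
    exact h1.symm.trans h2
  obtain ⟨j, hj⟩ := Set.mem_iUnion.1 (hcov (Set.mem_range_self x))
  obtain ⟨s, hs, hsD⟩ := hG4 (some j, 0)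
  have h1 : x ∈ cyl s.1 ∩ T ∩ f ⁻¹' F j := ⟨⟨hx s hs, hxT⟩, hj⟩
  have h2 : cyl s.1 ∩ T ∩ f ⁻¹' F j = ∅ := hsD
  rw [h2] at h1
  exact h1

end Pool.Agent.W910.Hull
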