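import Mathlib
import Pool.Agent.W684.MADef

/-!
# Consequences of Martin's axiom for `ℵ₁` dense sets
-/

set_option autoImplicit false

namespace Pool.Agent.W910.Hull

open Cardinal MeasureTheory Set Pool.Agent.W684

/-- the well-ordered set of the countable ordinals -/
abbrev Om1 : Type := (ℵ₁ : Cardinal.{0}).ord.ToType

theorem mk_Om1 : #Om1 = ℵ₁ := Cardinal.mk_ord_toType _

theorem countable_Iic (a : Om1) : (Set.Iic a).Countable := by
  have h3 := Cardinal.mk_Iio_toType_ord_lt a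
  have h4 : (Set.Iio a).Countable := by
    rw [← Cardinal.le_aleph0_iff_set_countable]
    have h6 : #(Set.Iio a) < Order.succ ℵ₀ := by
      rw [Cardinal.succ_aleph0]
      exact h3
    exact Order.lt_succ_iff.1 h6
  have h5 : Set.Iic a = insert a (Set.Iio a) := by
    ext b
    simp [le_iff_eq_or_lt]
  rw [h5]
  exact h4.insert a

theorem not_countable_univ : ¬ (Set.univ : Set Om1).Countable := by
  rw [← Cardinal.le_aleph0_iff_set_countable, Cardinal.mk_univ, Cardinal.mk_ord_toType]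
  exact not_le.2 Cardinal.aleph0_lt_aleph_one

instance : Nonempty Om1 := by
  by_contra h
  rw [not_nonempty_iff] at h
  exact not_countable_univ (Set.to_countable _)

theorem exists_gt_of_countable {S : Set Om1} (hS : ¬ S.Countable) {B : Set Om1}
    (hB : B.Countable) : ∃ a ∈ S, ∀ b ∈ B, b < a := by
  by_contra hcon
  push Not at hcon
  apply hS
  refine (hB.biUnion fun b _ => countable_Iic b).mono fun a ha => ?_
  obtain ⟨b, hb, hab⟩ := hcon a ha
  exact Set.mem_biUnion hb hab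

/-- Martin's axiom for indexed families of dense sets -/
theorem ma_indexed (hMA : MartinAxiomAleph1) {P : Type} [Preorder P] [Nonempty P] (hP : IsCCC P)
    {ι : Type} (hι : #ι ≤ ℵ₁) (D : ι → Set P) (hD : ∀ i p, ∃ q ∈ D i, q ≤ p) :
    ∃ G : Set P, G.Nonempty ∧ (∀ p ∈ G, ∀ q : P, p ≤ q → q ∈ G) ∧
        (∀ p ∈ G, ∀ q ∈ G, ∃ r ∈ G, r ≤ p ∧ r ≤ q) ∧ ∀ i, (G ∩ D i).Nonempty := by
  obtain ⟨G, h1, h2, h3, h4⟩ := hMA P hP (Set.range D) (mk_range_le.trans hι) (by
    rintro _ ⟨i, rfl⟩ p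
    exact hD i p)
  exact ⟨G, h1, h2, h3, fun i => h4 _ ⟨i, rfl⟩⟩

/-- Under Martin's axiom, every family of `ℵ₁` conditions in a ccc preorder has an uncountable
subfamily in a filter. -/
theorem exists_filter_uncountable (hMA : MartinAxiomAleph1) {P : Type} [Preorder P]
    (hP : IsCCC P) (f : Om1 → P) :
    ∃ G : Set P, (∀ p ∈ G, ∀ q ∈ G, ∃ r ∈ G, r ≤ p ∧ r ≤ q) ∧ ¬ {i | f i ∈ G}.Countable := by
  classical
  -- a condition below which all tails are dense
  obtain ⟨p0, hp0⟩ : ∃ p0 : P, ∀ q ≤ p0, ∀ a : Om1, ∃ i, a < i ∧ ∃ r, r ≤ q ∧ r ≤ f i := by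
    by_contra hcon
    push Not at hcon
    -- maximal antichain of conditions with a bound
    let E : Set P := {q | ∃ a : Om1, ∀ i, a < i → ∀ r, r ≤ q → ¬ r ≤ f i}
    obtain ⟨A, ⟨hA1, hA2⟩, hmax⟩ : ∃ A, Maximal (fun A : Set P => A ⊆ E ∧
        ∀ p ∈ A, ∀ q ∈ A, p ≠ q → ¬ ∃ r, r ≤ p ∧ r ≤ q) A := by
      apply zorn_subset {A : Set P | A ⊆ E ∧ ∀ p ∈ A, ∀ q ∈ A, p ≠ q → ¬ ∃ r, r ≤ p ∧ r ≤ q}
      intro c hc hchain
      refine ⟨⋃₀ c, ⟨Set.sUnion_subset fun A hA => (hc hA).1, ?_⟩,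
        fun s hs => Set.subset_sUnion_of_mem hs⟩
      rintro p ⟨A, hA, hpA⟩ q ⟨B, hB, hqB⟩ hne
      rcases hchain.total hA hB with h | h
      · exact (hc hB).2 p (h hpA) q hqB hne
      · exact (hc hA).2 p hpA q (h hqB) hne
    have hAc : A.Countable := hP A hA2
    have hb : ∀ q ∈ A, ∃ a : Om1, ∀ i, a < i → ∀ r, r ≤ q → ¬ r ≤ f i := fun q hq => hA1 hq
    choose! b hb using hb
    obtain ⟨i, _, hi⟩ := exists_gt_of_countable not_countable_univ (hAc.image b)
    obtain ⟨q, hq, a, ha⟩ := hcon (f i)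
    have hqE : q ∈ E := ⟨a, fun j hj r h1 h2 => ha j hj r h1 h2⟩
    have hqcomp : ∀ p ∈ A, ¬ ∃ r, r ≤ p ∧ r ≤ q := by
      rintro p hp ⟨r, h1, h2⟩
      exact hb p hp i (hi _ (Set.mem_image_of_mem b hp)) r h1 (h2.trans hq)
    have hqA : q ∉ A := fun h => hqcomp q h ⟨q, le_rfl, le_rfl⟩
    apply hqA
    refine hmax (y := insert q A) ⟨Set.insert_subset hqE hA1, ?_⟩ (Set.subset_insert q A)
      (Set.mem_insert q A)
    rintro x (rfl | hx) y (rfl | hy) hne
    · exact absurd rfl hne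
    · rintro ⟨r, hr1, hr2⟩
      exact hqcomp y hy ⟨r, hr2, hr1⟩
    · rintro ⟨r, hr1, hr2⟩
      exact hqcomp x hx ⟨r, hr1, hr2⟩
    · exact hA2 x hx y hy hne
  -- the preorder below `p0`
  let Q : Type := {q : P // q ≤ p0}
  have : Nonempty Q := ⟨⟨p0, le_rfl⟩⟩
  have hQ : IsCCC Q := by
    intro A hA
    have h1 : (Subtype.val '' A).Countable := by
      apply hP
      rintro _ ⟨p, hp, rfl⟩ _ ⟨q, hq, rfl⟩ hne ⟨r, h1, h2⟩
      exact hA p hp q hq (fun h => hne (by rw [h])) ⟨⟨r, h1.trans p.2⟩, h1, h2⟩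
    exact Set.countable_of_injective_of_countable_image (Subtype.val_injective.injOn) h1
  obtain ⟨G, hG1, hG2, hG3, hG4⟩ := ma_indexed hMA hQ (ι := Om1) mk_Om1.le
    (fun a => {q : Q | ∃ i, a < i ∧ q.1 ≤ f i}) (by
      intro a q
      obtain ⟨i, hi, r, h1, h2⟩ := hp0 q.1 q.2 a
      exact ⟨⟨r, h1.trans q.2⟩, ⟨i, hi, h2⟩, h1⟩)
  refine ⟨{p | ∃ q ∈ G, q.1 ≤ p}, ?_, ?_⟩
  · rintro p ⟨q, hq, hqp⟩ p' ⟨q', hq', hqp'⟩
    obtain ⟨r, hr, h1, h2⟩ := hG3 q hq q' hq'
    exact ⟨r.1, ⟨r, hr, le_rfl⟩, le_trans (show r.1 ≤ q.1 from h1) hqp,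
      le_trans (show r.1 ≤ q'.1 from h2) hqp'⟩
  · intro hc
    obtain ⟨a, _, ha⟩ := exists_gt_of_countable not_countable_univ hc
    obtain ⟨q, hqG, i, hi, hqi⟩ := hG4 a
    exact absurd (ha i ⟨q, hqG, hqi⟩) (not_lt.2 hi.le)

theorem measure_iUnion_eq_iSup_finset {ι : Type} [Countable ι] (f : ι → Set ℝ) :
    volume (⋃ i, f i) = ⨆ t : Finset ι, volume (⋃ i ∈ t, f i) := by
  classical
  have h1 : (⋃ i, f i) = ⋃ t : Finset ι, ⋃ i ∈ t, f i := by
    ext x
    simp only [Set.mem_iUnion]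
    constructor
    · rintro ⟨i, hi⟩
      exact ⟨{i}, i, by simp, hi⟩
    · rintro ⟨t, i, _, hi⟩
      exact ⟨i, hi⟩
  rw [h1]
  apply Directed.measure_iUnion
  intro s t
  refine ⟨s ∪ t, ?_, ?_⟩
  · intro x hx
    simp only [Set.mem_iUnion] at hx ⊢
    obtain ⟨i, hi, hx⟩ := hx
    exact ⟨i, Finset.mem_union_left _ hi, hx⟩
  · intro x hx
    simp only [Set.mem_iUnion] at hx ⊢
    obtain ⟨i, hi, hx⟩ := hx
    exact ⟨i, Finset.mem_union_right _ hi, hx⟩

/-- finite unions of basic open sets -/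
noncomputable def fu (t : Finset (TopologicalSpace.countableBasis ℝ)) : Set ℝ := ⋃ b ∈ t, b.1

theorem exists_fu {V : Set ℝ} (hV : IsOpen V) (hfin : volume V ≠ ⊤) {δ : ENNReal} (hδ : δ ≠ 0) :
    ∃ t, fu t ⊆ V ∧ volume V < volume (fu t) + δ := by
  classical
  obtain ⟨S, hS1, hS2⟩ := (TopologicalSpace.isBasis_countableBasis ℝ).open_eq_sUnion hV
  by_contra hcon
  push Not at hcon
  have hSc : S.Countable := (TopologicalSpace.countable_countableBasis ℝ).mono hS1
  have h1 : volume V = ⨆ t : Finset S, volume (⋃ b ∈ t, b.1) := by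
    rw [hS2, Set.sUnion_eq_iUnion]
    have : Countable S := hSc.to_subtype
    exact measure_iUnion_eq_iSup_finset _
  have h2 : ∀ t : Finset S, volume (⋃ b ∈ t, b.1) + δ ≤ volume V := by
    intro t
    have h3 := hcon (t.image fun b => (⟨b.1, hS1 b.2⟩ : TopologicalSpace.countableBasis ℝ)) (by
      intro x hx
      simp only [fu, Set.mem_iUnion, Finset.mem_image] at hx
      obtain ⟨b, ⟨c, hc, rfl⟩, hx⟩ := hx
      rw [hS2]
      exact ⟨c.1, c.2, hx⟩)
    refine le_trans ?_ h3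
    gcongr
    intro x hx
    simp only [Set.mem_iUnion] at hx
    obtain ⟨b, hb, hx⟩ := hx
    simp only [fu, Set.mem_iUnion, Finset.mem_image]
    exact ⟨_, ⟨b, hb, rfl⟩, hx⟩
  have h4 : volume V + δ ≤ volume V := by
    conv_lhs => rw [h1]
    rw [ENNReal.iSup_add]
    exact iSup_le h2
  exact absurd h4 (not_le.2 (ENNReal.lt_add_right hfin hδ))

/-- the amoeba preorder -/
def Amoeba (ε : ENNReal) : Type := {V : Set ℝ // IsOpen V ∧ volume V < ε}

instance (ε : ENNReal) : Preorder (Amoeba ε) where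
  le V W := W.1 ⊆ V.1
  le_refl V := Set.Subset.refl _
  le_trans V W X h1 h2 := Set.Subset.trans h2 h1

theorem amoeba_ccc {ε : ENNReal} : IsCCC (Amoeba ε) := by
  intro A hA
  have h1 : ∀ V : Amoeba ε, ∃ t, fu t ⊆ V.1 ∧ volume V.1 < volume (fu t) + (ε - volume V.1) := by
    intro V
    exact exists_fu V.2.1 (V.2.2.trans_le le_top).ne (tsub_pos_of_lt V.2.2).ne'
  choose t ht1 ht2 using h1
  refine Set.countable_of_injective_of_countable_image (f := t) (s := A) ?_
    (Set.to_countable _)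
  intro V hV W hW heq
  by_contra hne
  wlog hle : volume V.1 ≤ volume W.1 generalizing V W
  · exact this hW hV heq.symm (fun h => hne h.symm) (le_of_not_ge hle)
  apply hA V hV W hW hne
  have hVtop : volume V.1 ≠ ⊤ := (V.2.2.trans_le le_top).ne
  have hWtop : volume W.1 ≠ ⊤ := (W.2.2.trans_le le_top).ne
  refine ⟨⟨V.1 ∪ W.1, V.2.1.union W.2.1, ?_⟩, Set.subset_union_left, Set.subset_union_right⟩
  have h3 : volume (V.1 ∪ W.1) + volume (fu (t V)) ≤ volume V.1 + volume W.1 := by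
    rw [← measure_union_add_inter V.1 W.2.1.measurableSet]
    gcongr
    exact Set.subset_inter (ht1 V) (heq ▸ ht1 W)
  have hfu : volume (fu (t V)) ≠ ⊤ :=
    ((measure_mono (ht1 V)).trans_lt (V.2.2.trans_le le_top)).ne
  by_contra hcon
  rw [not_lt] at hcon
  have h4 : volume W.1 < volume (fu (t V)) + (ε - volume W.1) := by
    rw [heq]
    exact ht2 W
  have h5 : volume V.1 + volume W.1 < volume V.1 + (volume (fu (t V)) + (ε - volume W.1)) :=
    ENNReal.add_lt_add_left hVtop h4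
  have h6 : volume V.1 + (volume (fu (t V)) + (ε - volume W.1)) ≤ ε + volume (fu (t V)) := by
    calc volume V.1 + (volume (fu (t V)) + (ε - volume W.1))
        ≤ volume W.1 + (volume (fu (t V)) + (ε - volume W.1)) := by gcongr
      _ = (volume W.1 + (ε - volume W.1)) + volume (fu (t V)) := by ring
      _ = ε + volume (fu (t V)) := by rw [add_tsub_cancel_of_le W.2.2.le]
  have h7 : ε + volume (fu (t V)) ≤ volume (V.1 ∪ W.1) + volume (fu (t V)) := by gcongr
  exact absurd (h7.trans h3) (not_le.2 (h5.trans_le h6))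

/-- Under Martin's axiom the union of `ℵ₁` null sets is null. -/
theorem null_iUnion (hMA : MartinAxiomAleph1) {ι : Type} (hι : #ι ≤ ℵ₁) (N : ι → Set ℝ)
    (hN : ∀ i, volume (N i) = 0) : volume (⋃ i, N i) = 0 := by
  rw [← nonpos_iff_eq_zero]
  refine le_of_forall_gt fun ε hε => ?_
  have hε : 0 < ε := hε
  obtain ⟨ε', hε'0, hε'⟩ := exists_between hε
  have : Nonempty (Amoeba ε') := ⟨⟨∅, isOpen_empty, by simpa using hε'0⟩⟩
  obtain ⟨G, ⟨V0, hV0⟩, _, hG, hGD⟩ := ma_indexed hMA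
    (amoeba_ccc (ε := ε')) hι
    (fun i => {V | N i ⊆ V.1}) (by
      intro i V
      obtain ⟨O, hO1, hO2, hO3⟩ := Set.exists_isOpen_lt_of_lt (μ := volume) (N i)
        (ε' - volume V.1) (by rw [hN i]; exact tsub_pos_of_lt V.2.2)
      refine ⟨⟨V.1 ∪ O, V.2.1.union hO2, ?_⟩, hO1.trans Set.subset_union_right,
        Set.subset_union_left⟩
      calc volume (V.1 ∪ O) ≤ volume V.1 + volume O := measure_union_le _ _
        _ < volume V.1 + (ε' - volume V.1) :=
            ENNReal.add_lt_add_left (V.2.2.trans_le le_top).ne hO3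
        _ = ε' := add_tsub_cancel_of_le V.2.2.le)
  have hfin : ∀ t : Finset (Amoeba ε'), (∀ V ∈ t, V ∈ G) → ∃ W ∈ G, ∀ V ∈ t, V.1 ⊆ W.1 := by
    classical
    intro t
    induction t using Finset.induction_on with
    | empty => exact fun _ => ⟨V0, hV0, by simp⟩
    | insert V t _ ih =>
      intro h
      obtain ⟨W, hW, h1⟩ := ih fun V' hV' => h V' (Finset.mem_insert_of_mem hV')
      obtain ⟨r, hr, h2, h3⟩ := hG V (h V (Finset.mem_insert_self _ _)) W hW
      refine ⟨r, hr, fun V' hV' => ?_⟩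
      rcases Finset.mem_insert.1 hV' with rfl | h4
      · exact h2
      · exact (h1 V' h4).trans h3
  obtain ⟨T, hTsub, hTc, hTeq⟩ := TopologicalSpace.isOpen_biUnion_countable G (fun V => V.1)
    (fun V _ => V.2.1)
  have hle : volume (⋃ V ∈ G, V.1) ≤ ε' := by
    rw [← hTeq, Set.biUnion_eq_iUnion]
    have : Countable T := hTc.to_subtype
    rw [measure_iUnion_eq_iSup_finset]
    refine iSup_le fun t => ?_
    obtain ⟨W, _, hW⟩ := hfin (t.map (Function.Embedding.subtype _)) (by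
      intro V hV
      obtain ⟨V', _, rfl⟩ := Finset.mem_map.1 hV
      exact hTsub V'.2)
    refine (measure_mono ?_).trans W.2.2.le
    refine Set.iUnion₂_subset fun V hV => hW V.1 ?_
    exact Finset.mem_map.2 ⟨V, hV, rfl⟩
  refine ((measure_mono ?_).trans hle).trans_lt hε'
  refine Set.iUnion_subset fun i => ?_
  obtain ⟨V, hV, hVi⟩ := hGD i
  exact Set.Subset.trans hVi (Set.subset_biUnion_of_mem (u := fun V : Amoeba ε' => V.1) hV)

end Pool.Agent.W910.Hull
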