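import Pool.Agent.W910.Hull.Poset
import Pool.Agent.W910.Hull.Cover

/-!
# No monotone Borel hulls for the measurable sets under Martin's axiom
-/

set_option autoImplicit false

namespace Pool.Agent.W910.Hull

open Cardinal MeasureTheory Set Metric Filter Topology Pool.Agent.W684

/-- The generic object: uncountably many points, the `i`-th in `H i`, such that different indices
`i`, `j` satisfy `x i ∈ z j + U`. -/
theorem exists_points (hMA : MartinAxiomAleph1) {U : Set ℝ} {z : Om1 → ℝ} {H : Om1 → Set ℝ}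
    (hU : IsOpen U) (hH : ∀ i, IsCompact (H i)) (hHne : ∀ i, (H i).Nonempty)
    (hz : ∀ i j, j < i → z i ∉ Bad U (H j)) :
    ∃ S : Set Om1, ¬ S.Countable ∧ ∃ x : Om1 → ℝ, ∀ i ∈ S, x i ∈ H i ∧
      ∀ j ∈ S, i ≠ j → x i - z j ∈ U := by
  classical
  choose c hc using hHne
  have hab : ∀ i, ∃ a b : ℚ, c i ∈ Ioo (a : ℝ) b := fun i => by
    obtain ⟨a, b, h, _⟩ := exists_interval isOpen_univ (Set.mem_univ (c i))
    exact ⟨a, b, h⟩
  choose a b hab using hab
  let f : Om1 → Cond U z H := fun i => ⟨{i}, a, b, fun j hj => by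
    rw [Finset.mem_singleton] at hj
    subst hj
    exact ⟨c j, hc j, hab j⟩, fun j hj k hk hne => by
    rw [Finset.mem_singleton] at hj hk
    exact absurd (hj.trans hk.symm) hne⟩
  obtain ⟨G, hG1, hG2⟩ := exists_filter_uncountable hMA (cond_ccc hU hz) f
  refine ⟨_, hG2, ?_⟩
  have hx : ∀ i, f i ∈ G → ∃ x ∈ H i, ∀ p ∈ G, i ∈ p.dom → x ∈ Icc (p.a i : ℝ) (p.b i) := by
    intro i hi
    let I : Type := {p : Cond U z H // p ∈ G ∧ i ∈ p.dom}
    have : Nonempty I := ⟨⟨f i, hi, Finset.mem_singleton_self i⟩⟩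
    have h1 := IsCompact.nonempty_iInter_of_directed_nonempty_isCompact_isClosed
      (fun p : I => H i ∩ Icc (p.1.a i : ℝ) (p.1.b i)) (by
        intro p q
        obtain ⟨r, hr, h1, h2⟩ := hG1 p.1 p.2.1 q.1 q.2.1
        refine ⟨⟨r, hr, h1.1 p.2.2⟩, ?_, ?_⟩
        · exact Set.inter_subset_inter_right _ (Icc_subset_Icc
            (by exact_mod_cast (h1.2 i p.2.2).1) (by exact_mod_cast (h1.2 i p.2.2).2))
        · exact Set.inter_subset_inter_right _ (Icc_subset_Icc
            (by exact_mod_cast (h2.2 i q.2.2).1) (by exact_mod_cast (h2.2 i q.2.2).2)))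
      (fun p => (p.1.meet i p.2.2).mono
        (Set.inter_subset_inter_right _ Ioo_subset_Icc_self))
      (fun p => (hH i).inter_right isClosed_Icc)
      (fun p => ((hH i).inter_right isClosed_Icc).isClosed)
    obtain ⟨x, hx⟩ := h1
    rw [Set.mem_iInter] at hx
    refine ⟨x, (hx ⟨f i, hi, Finset.mem_singleton_self i⟩).1, fun p hp hip => (hx ⟨p, hp, hip⟩).2⟩
  choose! x hx1 hx2 using hx
  refine ⟨x, fun i hi => ⟨hx1 i hi, fun j hj hij => ?_⟩⟩
  obtain ⟨r, hr, h1, h2⟩ := hG1 (f i) hi (f j) hj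
  have hir : i ∈ r.dom := h1.1 (Finset.mem_singleton_self i)
  have hjr : j ∈ r.dom := h2.1 (Finset.mem_singleton_self j)
  exact r.hit i hir j hjr hij _ (hx2 i hi r hr hir)

/-- The intersection of `ℵ₁` Borel sets is Lebesgue measurable. -/
theorem nullMeasurable_iInter (hMA : MartinAxiomAleph1) {ι : Type} (hι : #ι ≤ ℵ₁)
    (O : ι → Set ℝ) (hO : ∀ i, MeasurableSet (O i)) : NullMeasurableSet (⋂ i, O i) := by
  set A := ⋂ i, O i with hA
  have h1 : volume (toMeasurable volume A \ A) = 0 := by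
    have h2 : toMeasurable volume A \ A = ⋃ i, toMeasurable volume A ∩ (O i)ᶜ := by
      ext x
      simp [hA]
    rw [h2]
    apply null_iUnion hMA hι
    intro i
    rw [Measure.measure_toMeasurable_inter_of_sFinite (hO i).compl]
    have h3 : A ∩ (O i)ᶜ = ∅ := by
      rw [Set.eq_empty_iff_forall_notMem]
      rintro x ⟨hx, hx'⟩
      exact hx' (Set.mem_iInter.1 hx i)
    rw [h3, measure_empty]
  have h4 : A =ᵐ[volume] toMeasurable volume A := by
    refine (subset_toMeasurable volume A).eventuallyLE.antisymm ?_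
    rwa [ae_le_set]
  exact NullMeasurableSet.congr (measurableSet_toMeasurable volume A).nullMeasurableSet h4.symm

/-- Under Martin's axiom for `ℵ₁` dense sets there is no monotone Borel hull operation on the
Lebesgue measurable sets. -/
theorem no_hull (hMA : MartinAxiomAleph1) (ψ : Set ℝ → Set ℝ)
    (h1 : ∀ A, NullMeasurableSet A volume → MeasurableSet (ψ A) ∧ A ⊆ ψ A ∧
      volume (ψ A \ A) = 0)
    (h2 : ∀ A B, NullMeasurableSet A volume → NullMeasurableSet B volume → A ⊆ B → ψ A ⊆ ψ B) :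
    False := by
  classical
  obtain ⟨U, hU, hUq, hUv⟩ := exists_U
  let V : ℝ → Set ℝ := fun y => {x | x - y ∈ U}
  have hV : ∀ y, IsOpen (V y) := fun y => hU.preimage (by fun_prop : Continuous fun x : ℝ => x - y)
  have hVv : ∀ y, volume (V y) = volume U := fun y => by
    have : V y = (fun x : ℝ => x + (-y)) ⁻¹' U := by
      ext x
      simp [V, sub_eq_add_neg]
    rw [this, measure_preimage_add_right]
  have hVm : ∀ y, NullMeasurableSet (V y) volume := fun y => (hV y).measurableSet.nullMeasurableSet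
  -- fat compact sets
  have hK : ∀ y, ∃ K ⊆ (ψ (V y))ᶜ, IsCompact K ∧ K.Nonempty ∧
      ∀ O : Set ℝ, IsOpen O → (K ∩ O).Nonempty → 0 < volume (K ∩ O) := by
    intro y
    apply exists_fat (h1 _ (hVm y)).1.compl
    rw [pos_iff_ne_zero]
    intro h0
    have h3 : (Set.univ : Set ℝ) ⊆ V y ∪ (ψ (V y) \ V y) ∪ (ψ (V y))ᶜ := by
      intro x _
      by_cases hx : x ∈ V y
      · exact Or.inl (Or.inl hx)
      · by_cases hx' : x ∈ ψ (V y)
        · exact Or.inl (Or.inr ⟨hx', hx⟩)
        · exact Or.inr hx'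
    have h4 : volume (Set.univ : Set ℝ) ≤ 1 := by
      refine (measure_mono h3).trans ((measure_union_le _ _).trans ?_)
      rw [h0, add_zero]
      refine (measure_union_le _ _).trans ?_
      rw [(h1 _ (hVm y)).2.2, add_zero, hVv]
      exact hUv.le
    rw [Real.volume_univ] at h4
    exact absurd h4 (by simp)
  choose K hKsub hKc hKne hKfat using hK
  obtain ⟨z, hz⟩ := exists_seq (fun y => Bad U (K y)) fun y => bad_null hUq (hKc y) (hKfat y)
  obtain ⟨S, hS, x, hx⟩ := exists_points hMA (H := fun i => K (z i)) hU (fun i => hKc _)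
    (fun i => hKne _) hz
  have hScard : #S ≤ ℵ₁ := (mk_set_le S).trans mk_Om1.le
  -- the set
  let A : Set ℝ := ⋂ i : S, V (z i)
  have hA : NullMeasurableSet A volume :=
    nullMeasurable_iInter hMA hScard _ fun i => (hV _).measurableSet
  have hE : AnalyticSet (ψ A)ᶜ := (h1 A hA).1.compl.analyticSet
  obtain ⟨t, ht, hcov⟩ := countable_cover hMA hScard (fun i : S => (V (z i))ᶜ)
    (fun i => (hV _).isClosed_compl) hE (by
      intro y hy
      have h3 : y ∉ A := fun h => hy ((h1 A hA).2.1 h)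
      simp only [A, Set.mem_iInter, not_forall] at h3
      obtain ⟨i, hi⟩ := h3
      exact Set.mem_iUnion.2 ⟨i, hi⟩)
  -- an index outside
  obtain ⟨i, hiS, hit⟩ : ∃ i ∈ S, ∀ j ∈ t, j.1 ≠ i := by
    by_contra hcon
    push Not at hcon
    apply hS
    refine (ht.image Subtype.val).mono fun i hi => ?_
    obtain ⟨j, hj, hji⟩ := hcon i hi
    exact ⟨j, hj, hji⟩
  have h5 : x i ∈ (ψ A)ᶜ := by
    intro hmem
    have h6 : ψ A ⊆ ψ (V (z i)) := h2 A _ hA (hVm _) (Set.iInter_subset _ (⟨i, hiS⟩ : S))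
    exact hKsub _ (hx i hiS).1 (h6 hmem)
  have h7 := hcov h5
  rw [Set.mem_iUnion₂] at h7
  obtain ⟨j, hj, hxj⟩ := h7
  exact hxj ((hx i hiS).2 j.1 j.2 (Ne.symm (hit j hj)))

end Pool.Agent.W910.Hull
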