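import Pool.Agent.W910.Hull.Choice
import Pool.Agent.Helper126.Fact

/-!
# The forcing notion
-/

set_option autoImplicit false

namespace Pool.Agent.W910.Hull

open Cardinal MeasureTheory Set Metric Filter Topology Pool.Agent.W684

section

variable (U : Set ℝ) (z : Om1 → ℝ) (H : Om1 → Set ℝ)

/-- conditions: finitely many indices `i`, each with a rational interval which meets `H i` and
whose closure is contained in `z j + U` for all other indices `j` of the condition -/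
structure Cond where
  dom : Finset Om1
  a : Om1 → ℚ
  b : Om1 → ℚ
  meet : ∀ i ∈ dom, (H i ∩ Ioo (a i : ℝ) (b i)).Nonempty
  hit : ∀ i ∈ dom, ∀ j ∈ dom, i ≠ j → ∀ x ∈ Icc (a i : ℝ) (b i), x - z j ∈ U

variable {U z H}

instance : Preorder (Cond U z H) where
  le p q := q.dom ⊆ p.dom ∧ ∀ i ∈ q.dom, q.a i ≤ p.a i ∧ p.b i ≤ q.b i
  le_refl p := ⟨Finset.Subset.refl _, fun i _ => ⟨le_rfl, le_rfl⟩⟩
  le_trans p q r h1 h2 := ⟨h2.1.trans h1.1, fun i hi =>
    ⟨(h2.2 i hi).1.trans (h1.2 i (h2.1 hi)).1, (h1.2 i (h2.1 hi)).2.trans (h2.2 i hi).2⟩⟩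

theorem cond_le {p q : Cond U z H} :
    p ≤ q ↔ q.dom ⊆ p.dom ∧ ∀ i ∈ q.dom, q.a i ≤ p.a i ∧ p.b i ≤ q.b i := Iff.rfl

/-- shrinking an interval around a point into an open set -/
theorem exists_interval {O : Set ℝ} (hO : IsOpen O) {x : ℝ} (hx : x ∈ O) :
    ∃ a b : ℚ, x ∈ Ioo (a : ℝ) b ∧ Icc (a : ℝ) b ⊆ O := by
  obtain ⟨ε, hε, h⟩ := Metric.isOpen_iff.1 hO x hx
  obtain ⟨a, ha1, ha2⟩ := exists_rat_btwn (show x - ε < x by linarith)
  obtain ⟨b, hb1, hb2⟩ := exists_rat_btwn (show x < x + ε by linarith)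
  refine ⟨a, b, ⟨ha2, hb1⟩, fun y hy => h ?_⟩
  rw [Metric.mem_ball, Real.dist_eq, abs_lt]
  constructor <;> linarith [hy.1, hy.2]

/-- the set of the reals which are bad for a portion of `H i` -/
def Bad (U K : Set ℝ) : Set ℝ := {y | ∃ a b : ℚ, (K ∩ Ioo (a : ℝ) b).Nonempty ∧
  ∀ x ∈ K ∩ Ioo (a : ℝ) b, x - y ∉ U}

theorem bad_null (hU : ∀ q : ℚ, (q : ℝ) ∈ U) {K : Set ℝ} (hK : IsCompact K)
    (hfat : ∀ O : Set ℝ, IsOpen O → (K ∩ O).Nonempty → 0 < volume (K ∩ O)) :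
    volume (Bad U K) = 0 := by
  have h1 : Bad U K ⊆ ⋃ t : {t : ℚ × ℚ // (K ∩ Ioo (t.1 : ℝ) t.2).Nonempty},
      {y | ∀ q : ℚ, y + q ∉ K ∩ Ioo (t.1.1 : ℝ) t.1.2} := by
    rintro y ⟨a, b, hne, hy⟩
    refine Set.mem_iUnion.2 ⟨⟨(a, b), hne⟩, fun q hq => hy _ hq ?_⟩
    rw [add_sub_cancel_left]
    exact hU q
  refine measure_mono_null h1 (measure_iUnion_null fun t => ?_)
  exact null_bad (hK.isClosed.measurableSet.inter measurableSet_Ioo) (hfat _ isOpen_Ioo t.2)

/-- The forcing notion has the countable chain condition. -/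
theorem cond_ccc (hU : IsOpen U) (hz : ∀ i j, j < i → z i ∉ Bad U (H j)) :
    IsCCC (Cond U z H) := by
  classical
  intro A hA
  by_contra hunc
  obtain ⟨A', R, hA', hunc', hR, hd⟩ := Helper126.delta_system
    (fun p : Cond U z H => p.dom) A hunc
  -- the type of a condition
  let E : Cond U z H → Finset Om1 := fun p => p.dom \ R
  let e : (p : Cond U z H) → ℕ → Om1 := fun p k =>
    if h : k < (E p).card then (E p).orderEmbOfFin rfl ⟨k, h⟩ else Classical.arbitrary Om1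
  have heE : ∀ p k, k < (E p).card → e p k ∈ E p := by
    intro p k hk
    simp only [e, dif_pos hk]
    exact Finset.orderEmbOfFin_mem _ _ _
  have hesurj : ∀ p, ∀ i ∈ E p, ∃ k < (E p).card, e p k = i := by
    intro p i hi
    have h1 := Finset.range_orderEmbOfFin (E p) rfl
    have h2 : i ∈ Set.range ((E p).orderEmbOfFin rfl) := by
      rw [h1]
      exact hi
    obtain ⟨k, hk⟩ := h2
    exact ⟨k.1, k.2, by simp only [e, dif_pos k.2]; exact hk⟩
  have heinj : ∀ p, ∀ k < (E p).card, ∀ l < (E p).card, e p k = e p l → k = l := by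
    intro p k hk l hl h
    simp only [e, dif_pos hk, dif_pos hl] at h
    have := ((E p).orderEmbOfFin rfl).injective h
    simpa using this
  let ty : Cond U z H → ℕ × (R → ℚ × ℚ) × (List (ℚ × ℚ)) := fun p =>
    ((E p).card, fun i => (p.a i, p.b i),
      (List.range (E p).card).map fun k => (p.a (e p k), p.b (e p k)))
  obtain ⟨τ, hτ⟩ : ∃ τ, ¬ {p ∈ A' | ty p = τ}.Countable := by
    by_contra hcon
    push Not at hcon
    apply hunc'
    refine (Set.countable_iUnion hcon).mono fun p hp => ?_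
    exact Set.mem_iUnion.2 ⟨ty p, hp, rfl⟩
  set B : Set (Cond U z H) := {p ∈ A' | ty p = τ} with hB
  obtain ⟨n, hn⟩ : ∃ n, ∀ p ∈ B, (E p).card = n :=
    ⟨τ.1, fun p hp => congrArg Prod.fst hp.2⟩
  have hRab : ∀ p ∈ B, ∀ q ∈ B, ∀ i ∈ R, p.a i = q.a i ∧ p.b i = q.b i := by
    intro p hp q hq i hi
    have h1 := congrArg (fun t : ℕ × (R → ℚ × ℚ) × (List (ℚ × ℚ)) => t.2.1 ⟨i, hi⟩)
      (hp.2.trans hq.2.symm)
    exact ⟨congrArg Prod.fst h1, congrArg Prod.snd h1⟩
  have hEab : ∀ p ∈ B, ∀ q ∈ B, ∀ k < n, p.a (e p k) = q.a (e q k) ∧ p.b (e p k) = q.b (e q k) := by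
    intro p hp q hq k hk
    have h1 := congrArg (fun t : ℕ × (R → ℚ × ℚ) × (List (ℚ × ℚ)) => t.2.2.getD k (0, 0))
      (hp.2.trans hq.2.symm)
    have h2 : ∀ p ∈ B, (ty p).2.2.getD k (0, 0) = (p.a (e p k), p.b (e p k)) := by
      intro p hp
      have hk' : k < (E p).card := by rw [hn p hp]; exact hk
      simp [ty, List.getD, hk']
    have h3 : (p.a (e p k), p.b (e p k)) = (q.a (e q k), q.b (e q k)) :=
      (h2 p hp).symm.trans (h1.trans (h2 q hq))
    exact ⟨congrArg Prod.fst h3, congrArg Prod.snd h3⟩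
  have hsep : ∀ p ∈ B, ∀ q ∈ B, p ≠ q → ∀ i ∈ E p, i ∉ q.dom := by
    intro p hp q hq hne i hi hiq
    rw [Finset.mem_sdiff] at hi
    exact hi.2 (hd p hp.1 q hq.1 hne i hi.1 hiq)
  -- conditions far out
  have hfar : ∀ C : Set Om1, C.Countable → ∃ q ∈ B, ∀ k < n, ∀ i ∈ C, i < e q k := by
    intro C hC
    by_contra hcon
    push Not at hcon
    apply hτ
    have h1 : B ⊆ ⋃ k : ℕ, ⋃ i ∈ C, {q ∈ B | k < n ∧ e q k ≤ i} := by
      intro q hq
      obtain ⟨k, hk, i, hi, hle⟩ := hcon q hq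
      simp only [Set.mem_iUnion]
      exact ⟨k, i, hi, hq, hk, hle⟩
    refine (Set.countable_iUnion fun k => hC.biUnion fun i _ => ?_).mono h1
    refine Set.countable_of_injective_of_countable_image (f := fun q => e q k) ?_
      ((countable_Iic i).mono ?_)
    · rintro p ⟨hp, hk, _⟩ q ⟨hq, _, _⟩ heq
      by_contra hne
      have h2 : e p k ∈ E p := heE p k (by rw [hn p hp]; exact hk)
      have h3 : e q k ∈ E q := heE q k (by rw [hn q hq]; exact hk)
      simp only at heq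
      rw [← heq] at h3
      exact hsep p hp q hq hne _ h2 (Finset.mem_sdiff.1 h3).1
    · rintro _ ⟨q, ⟨_, _, hle⟩, rfl⟩
      exact hle
  -- shrinking an interval of a condition
  have main : ∀ p ∈ B, ∀ q ∈ B, p ≠ q →
      (∀ k < n, ∃ x ∈ H (e p k) ∩ Ioo (p.a (e p k) : ℝ) (p.b (e p k)), x - z (e q k) ∈ U) →
      ∀ i ∈ p.dom, i ∉ q.dom → ∃ a b : ℚ, (H i ∩ Ioo (a : ℝ) b).Nonempty ∧
        (p.a i ≤ a ∧ b ≤ p.b i) ∧
        ∀ j ∈ p.dom ∪ q.dom, i ≠ j → ∀ x ∈ Icc (a : ℝ) b, x - z j ∈ U := by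
    intro p hp q hq hne hx i hip hiq
    have hiE : i ∈ E p := Finset.mem_sdiff.2 ⟨hip, fun h => hiq (hR q hq.1 h)⟩
    obtain ⟨k, hk, rfl⟩ := hesurj p i hiE
    rw [hn p hp] at hk
    obtain ⟨x, ⟨hxH, hxI⟩, hxU⟩ := hx k hk
    obtain ⟨a, b, hab, hsub⟩ := exists_interval
      (O := Ioo (p.a (e p k) : ℝ) (p.b (e p k)) ∩ (fun y : ℝ => y - z (e q k)) ⁻¹' U)
      (isOpen_Ioo.inter (hU.preimage (by fun_prop))) ⟨hxI, hxU⟩
    have hle : (a : ℝ) ≤ b := (hab.1.trans hab.2).le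
    have ha := (hsub (left_mem_Icc.2 hle)).1
    have hb := (hsub (right_mem_Icc.2 hle)).1
    refine ⟨a, b, ⟨x, hxH, hab⟩, ⟨by exact_mod_cast ha.1.le, by exact_mod_cast hb.2.le⟩, ?_⟩
    intro j hj hij y hy
    have hyI := (hsub hy).1
    by_cases hjp : j ∈ p.dom
    · exact p.hit _ hip j hjp hij y ⟨hyI.1.le, hyI.2.le⟩
    · have hjq : j ∈ q.dom := by
        rcases Finset.mem_union.1 hj with h | h
        · exact absurd h hjp
        · exact h
      have hjE : j ∈ E q := Finset.mem_sdiff.2 ⟨hjq, fun h => hjp (hR p hp.1 h)⟩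
      obtain ⟨l, hl, rfl⟩ := hesurj q j hjE
      rw [hn q hq] at hl
      by_cases hkl : l = k
      · subst hkl
        exact (hsub hy).2
      · have hkq : e q k ∈ q.dom :=
          (Finset.mem_sdiff.1 (heE q k (by rw [hn q hq]; exact hk))).1
        refine q.hit _ hkq _ hjq (fun h => hkl ?_) y ?_
        · exact (heinj q k (by rw [hn q hq]; exact hk) l (by rw [hn q hq]; exact hl) h).symm
        · rw [← (hEab p hp q hq k hk).1, ← (hEab p hp q hq k hk).2]
          exact ⟨hyI.1.le, hyI.2.le⟩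
  -- incompatibility
  have key : ∀ p ∈ B, ∀ q ∈ B, p ≠ q → (∀ k < n, e p k < e q k) →
      ∃ k < n, ∀ x ∈ H (e q k) ∩ Ioo (q.a (e q k) : ℝ) (q.b (e q k)), x - z (e p k) ∉ U := by
    intro p hp q hq hne hlt
    by_contra hcon
    push Not at hcon
    apply hA p (hA' hp.1) q (hA' hq.1) hne
    -- for each index a suitable interval
    have hpk : ∀ k < n, ∃ x ∈ H (e p k) ∩ Ioo (p.a (e p k) : ℝ) (p.b (e p k)),
        x - z (e q k) ∈ U := by
      intro k hk
      by_contra hcon2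
      push Not at hcon2
      refine hz (e q k) (e p k) (hlt k hk) ⟨p.a (e p k), p.b (e p k), ?_, hcon2⟩
      exact p.meet _ (Finset.mem_sdiff.1 (heE p k (by rw [hn p hp]; exact hk))).1
    have hint : ∀ i ∈ p.dom ∪ q.dom, ∃ a b : ℚ, (H i ∩ Ioo (a : ℝ) b).Nonempty ∧
        (i ∈ p.dom → p.a i ≤ a ∧ b ≤ p.b i) ∧ (i ∈ q.dom → q.a i ≤ a ∧ b ≤ q.b i) ∧
        ∀ j ∈ p.dom ∪ q.dom, i ≠ j → ∀ x ∈ Icc (a : ℝ) b, x - z j ∈ U := by
      intro i hi
      by_cases hip : i ∈ p.dom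
      · by_cases hiq : i ∈ q.dom
        · have hiR : i ∈ R := hd p hp.1 q hq.1 hne i hip hiq
          obtain ⟨h1, h2⟩ := hRab p hp q hq i hiR
          refine ⟨p.a i, p.b i, p.meet i hip, fun _ => ⟨le_rfl, le_rfl⟩,
            fun _ => ⟨h1.symm.le, h2.le⟩, fun j hj hij x hx => ?_⟩
          rcases Finset.mem_union.1 hj with hj | hj
          · exact p.hit i hip j hj hij x hx
          · rw [h1, h2] at hx
            exact q.hit i hiq j hj hij x hx
        · obtain ⟨a, b, h1, h2, h3⟩ := main p hp q hq hne hpk i hip hiq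
          exact ⟨a, b, h1, fun _ => h2, fun h => absurd h hiq, h3⟩
      · have hiq : i ∈ q.dom := by
          rcases Finset.mem_union.1 hi with h | h
          · exact absurd h hip
          · exact h
        obtain ⟨a, b, h1, h2, h3⟩ := main q hq p hp (Ne.symm hne) hcon i hiq hip
        refine ⟨a, b, h1, fun h => absurd h hip, fun _ => h2, fun j hj => h3 j ?_⟩
        rwa [Finset.union_comm]
    choose! a b hab1 hab2 hab3 hab4 using hint
    exact ⟨⟨p.dom ∪ q.dom, a, b, hab1, hab4⟩,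
      ⟨Finset.subset_union_left, fun i hi => hab2 i (Finset.mem_union_left _ hi) hi⟩,
      ⟨Finset.subset_union_right, fun i hi => hab3 i (Finset.mem_union_right _ hi) hi⟩⟩
  have hn0 : 0 < n := by
    by_contra hn0
    have hn0 : n = 0 := by omega
    subst hn0
    obtain ⟨p, hp⟩ : B.Nonempty := by
      rw [Set.nonempty_iff_ne_empty]
      intro h
      exact hτ (by rw [h]; exact Set.countable_empty)
    obtain ⟨q, hq, hne⟩ : ∃ q ∈ B, p ≠ q := by
      by_contra hcon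
      push Not at hcon
      exact hτ ((Set.countable_singleton p).mono fun q hq => (hcon q hq).symm)
    obtain ⟨k, hk, _⟩ := key p hp q hq hne (fun k hk => absurd hk (by omega))
    omega
  -- a countable dense set of conditions
  let Z : Cond U z H → (Fin n → ℝ) := fun p k => z (e p k)
  obtain ⟨D, hDB, hDc, hDd⟩ : ∃ D ⊆ B, D.Countable ∧ Z '' B ⊆ closure (Z '' D) := by
    obtain ⟨t, ht1, ht2, ht3⟩ :=
      (TopologicalSpace.IsSeparable.of_separableSpace (Z '' B)).exists_countable_dense_subset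
    have : Nonempty (Cond U z H) := ⟨⟨∅, fun _ => 0, fun _ => 0, by simp, by simp⟩⟩
    have ht1' : ∀ y ∈ t, ∃ p ∈ B, Z p = y := fun y hy => ht1 hy
    choose! g hgB hgZ using ht1'
    refine ⟨g '' t, ?_, ht2.image g, ?_⟩
    · rintro _ ⟨y, hy, rfl⟩
      exact hgB y hy
    · refine ht3.trans (closure_mono fun y hy => ?_)
      exact ⟨g y, Set.mem_image_of_mem g hy, hgZ y hy⟩
  obtain ⟨q, hq, hqfar⟩ := hfar (⋃ p ∈ D, (p.dom : Set Om1))
    (hDc.biUnion fun p _ => p.dom.countable_toSet)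
  -- the closed set
  let W : Set (Fin n → ℝ) := {y | ∃ k : Fin n,
    ∀ x ∈ H (e q k) ∩ Ioo (q.a (e q k) : ℝ) (q.b (e q k)), x - y k ∉ U}
  have hW : IsClosed W := by
    have : W = ⋃ k : Fin n, ⋂ x ∈ H (e q k) ∩ Ioo (q.a (e q k) : ℝ) (q.b (e q k)),
        {y : Fin n → ℝ | x - y k ∉ U} := by
      ext y
      simp [W]
    rw [this]
    refine isClosed_iUnion_of_finite fun k => isClosed_biInter fun x _ => ?_
    have : {y : Fin n → ℝ | x - y k ∉ U} = (fun y : Fin n → ℝ => x - y k) ⁻¹' Uᶜ := rfl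
    rw [this]
    exact hU.isClosed_compl.preimage (by fun_prop)
  have hDW : Z '' D ⊆ W := by
    rintro _ ⟨p, hp, rfl⟩
    have hlt : ∀ k < n, e p k < e q k := by
      intro k hk
      apply hqfar k hk
      refine Set.mem_biUnion hp ?_
      exact (Finset.mem_sdiff.1 (heE p k (by rw [hn p (hDB hp)]; exact hk))).1
    by_cases hpq : p = q
    · subst hpq
      exact absurd (hlt 0 hn0) (lt_irrefl _)
    · obtain ⟨k, hk, h⟩ := key p (hDB hp) q hq hpq hlt
      exact ⟨⟨k, hk⟩, h⟩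
  have hBW : Z '' B ⊆ W := hDd.trans (hW.closure_subset_iff.2 hDW)
  obtain ⟨r, hr, hrfar⟩ := hfar q.dom q.dom.countable_toSet
  obtain ⟨k, hk⟩ := hBW (Set.mem_image_of_mem Z hr)
  have hqk : e q k ∈ q.dom := (Finset.mem_sdiff.1 (heE q k (by rw [hn q hq]; exact k.2))).1
  refine hz (e r k) (e q k) (hrfar k k.2 _ hqk) ⟨_, _, q.meet _ hqk, hk⟩

end

end Pool.Agent.W910.Hull
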